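import Mathlib

/-!
# Affine spaces of nilpotent matrices of constant rank

We prove that for `2 ≤ n`, `1 ≤ r ≤ n - 1` and every field `K` with at least `n ^ 2` elements the
largest dimension of an affine subspace of `M_n(K)` all of whose elements are nilpotent of rank
exactly `r` is `∑_{i=1}^{r} (n - 1 - i) = r (2 n - r - 3) / 2`.

Outline of the upper bound.  More generally (`main_ineq`) an affine space `s + Z` of nilpotent
operators on an `n`-dimensional space with all ranks between `p` and `r` satisfies
`dim Z + p ≤ ∑_{i<r} (n - 1 - i)`.  The proof is by induction on `n`.  One takes a nonzero vector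
`e` in the kernel of some element of `s + Z` and passes to the elements killing `e`, acting on
`V / K e`.  Writing `Z e = {z e : z ∈ Z}` and `Φ = {φ : e ⊗ φ ∈ Z}`, one has
`dim Z ≤ dim (Z e) + dim Φ + dim Zbar` and the four estimates `F1`, `F2`, `F3`, `F4` for
`dim (Z e) + dim Φ`, according to how the maximal and the minimal rank change.
-/

set_option autoImplicit false

namespace Pool.Agent.Results.MP_5eb035_al.ConstantRank

open Module

universe u v w

section PolyFun

variable {K : Type u} [Field K] {V : Type v} [AddCommGroup V] [Module K V]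

/-- `f : K → V` is a polynomial function of degree at most `d` with vector coefficients. -/
def PolyDeg (d : ℕ) (f : K → V) : Prop :=
  ∃ c : ℕ → V, ∀ t : K, f t = ∑ i ∈ Finset.range (d + 1), t ^ i • c i

lemma PolyDeg.mono {d d' : ℕ} (h : d ≤ d') {f : K → V} (hf : PolyDeg d f) : PolyDeg d' f := by
  obtain ⟨c, hc⟩ := hf
  refine ⟨fun i => if i < d + 1 then c i else 0, fun t => ?_⟩
  rw [hc t]
  have hsub : Finset.range (d + 1) ⊆ Finset.range (d' + 1) := by
    intro i hi
    simp only [Finset.mem_range] at hi ⊢
    omega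
  rw [← Finset.sum_subset hsub]
  · apply Finset.sum_congr rfl
    intro i hi
    simp only [Finset.mem_range] at hi
    simp [hi]
  · intro i _ hi
    simp only [Finset.mem_range] at hi
    simp [hi]

lemma PolyDeg.const (v : V) : PolyDeg (K := K) 0 (fun _ => v) :=
  ⟨fun _ => v, fun t => by simp⟩

lemma PolyDeg.add {d : ℕ} {f g : K → V} (hf : PolyDeg d f) (hg : PolyDeg d g) :
    PolyDeg d (fun t => f t + g t) := by
  obtain ⟨c, hc⟩ := hf
  obtain ⟨c', hc'⟩ := hg
  refine ⟨fun i => c i + c' i, fun t => ?_⟩
  change f t + g t = _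
  rw [hc t, hc' t, ← Finset.sum_add_distrib]
  simp [smul_add]

lemma PolyDeg.map {V' : Type w} [AddCommGroup V'] [Module K V'] {d : ℕ} {f : K → V}
    (hf : PolyDeg d f) (L : V →ₗ[K] V') : PolyDeg d (fun t => L (f t)) := by
  obtain ⟨c, hc⟩ := hf
  refine ⟨fun i => L (c i), fun t => ?_⟩
  change L (f t) = _
  rw [hc t, map_sum]
  simp

lemma PolyDeg.tsmul {d : ℕ} {f : K → V} (hf : PolyDeg d f) :
    PolyDeg (d + 1) (fun t => t • f t) := by
  obtain ⟨c, hc⟩ := hf
  refine ⟨fun i => if i = 0 then 0 else c (i - 1), fun t => ?_⟩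
  rw [Finset.sum_range_succ']
  simp only [hc t, Finset.smul_sum, smul_smul]
  simp [pow_succ, mul_comm]

lemma PolyDeg.affine {d : ℕ} {f : K → V} (hf : PolyDeg d f) (A B : V →ₗ[K] V) :
    PolyDeg (d + 1) (fun t : K => (A + t • B) (f t)) := by
  have h1 := (hf.map A).mono (Nat.le_succ d)
  have h2 := (hf.map B).tsmul
  have := h1.add h2
  simpa using this

lemma PolyDeg.pow_affine (A B : Module.End K V) (v : V) (j : ℕ) :
    PolyDeg j (fun t : K => ((A + t • B) ^ j) v) := by
  induction j with
  | zero => simpa using PolyDeg.const (K := K) v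
  | succ j ih =>
    have := ih.affine A B
    simpa [pow_succ'] using this

lemma PolyDeg.sum {ι : Type w} (s : Finset ι) {d : ℕ} {f : ι → K → V}
    (hf : ∀ i ∈ s, PolyDeg d (f i)) : PolyDeg d (fun t => ∑ i ∈ s, f i t) := by
  classical
  induction s using Finset.induction_on with
  | empty =>
    simpa using (PolyDeg.const (K := K) (0 : V)).mono (Nat.zero_le d)
  | insert a s ha ih =>
    have h1 := hf a (Finset.mem_insert_self a s)
    have h2 := ih (fun i hi => hf i (Finset.mem_insert_of_mem hi))
    have := h1.add h2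
    simpa [Finset.sum_insert ha] using this

lemma PolyDeg.exists_poly {d : ℕ} {f : K → K} (hf : PolyDeg d f) :
    ∃ P : Polynomial K, P.natDegree ≤ d ∧ ∀ t, P.eval t = f t := by
  obtain ⟨c, hc⟩ := hf
  refine ⟨∑ i ∈ Finset.range (d + 1), Polynomial.C (c i) * Polynomial.X ^ i, ?_, fun t => ?_⟩
  · apply Polynomial.natDegree_sum_le_of_forall_le
    intro i hi
    simp only [Finset.mem_range] at hi
    exact (Polynomial.natDegree_C_mul_X_pow_le _ _).trans (by omega)
  · rw [hc t, Polynomial.eval_finsetSum]
    apply Finset.sum_congr rfl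
    intro i _
    rw [Polynomial.eval_mul, Polynomial.eval_C, Polynomial.eval_pow, Polynomial.eval_X,
      smul_eq_mul, mul_comm]

/-- A polynomial function of degree at most `d` vanishing at more than `d` nonzero points
vanishes at `0`. -/
lemma PolyDeg.zero_of_forall {d : ℕ} {f : K → K} (hf : PolyDeg d f) (T : Finset K)
    (hT : d < T.card) (h : ∀ t ∈ T, f t = 0) : f 0 = 0 := by
  obtain ⟨P, hP, hPf⟩ := hf.exists_poly
  have : P = 0 := Polynomial.eq_zero_of_natDegree_lt_card_of_eval_eq_zero' P T
    (fun t ht => by rw [hPf, h t ht]) (lt_of_le_of_lt hP hT)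
  rw [← hPf 0, this]
  simp

/-- Linear independence at `t = 0` of a polynomial family propagates to some `t` in any large
enough finite set. -/
lemma exists_linearIndependent {ι : Type} [Fintype ι] [DecidableEq ι]
    (f : ι → K → V) (d : ℕ) (hf : ∀ i, PolyDeg d (f i))
    (h0 : LinearIndependent K (fun i => f i 0)) (T : Finset K)
    (hT : Fintype.card ι * d < T.card) :
    ∃ t ∈ T, LinearIndependent K (fun i => f i t) := by
  classical
  -- a left inverse of the linear combination map
  have hker : LinearMap.ker (Fintype.linearCombination K (fun i => f i 0)) = ⊥ := by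
    rw [LinearMap.ker_eq_bot]
    exact linearIndependent_iff_injective_fintypeLinearCombination.1 h0
  obtain ⟨g, hg⟩ := LinearMap.exists_leftInverse_of_injective _ hker
  have hgi : ∀ i, g (f i 0) = Pi.single i 1 := by
    intro i
    have := LinearMap.congr_fun hg (Pi.single i 1)
    simpa [Fintype.linearCombination_apply_single] using this
  have hpoly : ∀ i j, ∃ P : Polynomial K, P.natDegree ≤ d ∧ ∀ t, P.eval t = g (f i t) j := by
    intro i j
    have := (hf i).map ((LinearMap.proj j).comp g)
    obtain ⟨P, hP, hP'⟩ := this.exists_poly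
    exact ⟨P, hP, fun t => by rw [hP' t]; rfl⟩
  choose P hPdeg hPeval using hpoly
  let M : Matrix ι ι (Polynomial K) := Matrix.of P
  have hdet : ∀ t, M.det.eval t = (Matrix.of fun i j => g (f i t) j).det := by
    intro t
    have := RingHom.map_det (Polynomial.evalRingHom t) M
    simp only [Polynomial.coe_evalRingHom] at this
    rw [this]
    congr 1
    ext i j
    simp [M, hPeval]
  have hdeg : M.det.natDegree ≤ Fintype.card ι * d := by
    rw [Matrix.det_apply]
    apply Polynomial.natDegree_sum_le_of_forall_le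
    intro σ _
    refine (Polynomial.natDegree_smul_le _ _).trans ?_
    refine (Polynomial.natDegree_prod_le _ _).trans ?_
    calc ∑ i, (M (σ i) i).natDegree ≤ ∑ _i : ι, d := Finset.sum_le_sum (fun i _ => hPdeg _ _)
      _ = Fintype.card ι * d := by simp
  have h1 : M.det.eval 0 = 1 := by
    rw [hdet 0]
    have : (Matrix.of fun i j => g (f i 0) j) = (1 : Matrix ι ι K) := by
      ext i j
      simp [hgi, Matrix.one_apply, Pi.single_apply, eq_comm]
    rw [this, Matrix.det_one]
  by_contra hcon
  push Not at hcon
  have hzero : M.det = 0 := by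
    apply Polynomial.eq_zero_of_natDegree_lt_card_of_eval_eq_zero' _ T
    · intro t ht
      by_contra hne
      apply hcon t ht
      have hne' : (Matrix.of fun i j => g (f i t) j).det ≠ 0 := by rwa [← hdet t]
      have hli := Matrix.linearIndependent_rows_of_det_ne_zero hne'
      have : (fun i => f i t) = fun i => f i t := rfl
      apply LinearIndependent.of_comp g
      exact hli
    · exact lt_of_le_of_lt hdeg hT
  rw [hzero] at h1
  simp at h1

end PolyFun


section Nilp

variable {K : Type u} [Field K] {V : Type v} [AddCommGroup V] [Module K V] [FiniteDimensional K V]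

lemma pow_finrank_eq_zero {A : End K V} (h : IsNilpotent A) : A ^ finrank K V = 0 := by
  have := LinearMap.aeval_self_charpoly A
  rw [h.charpoly_eq_X_pow_finrank] at this
  simpa using this

omit [FiniteDimensional K V] in
lemma eq_zero_of_fix {A : End K V} (h : IsNilpotent A) {v : V} (hv : A v = v) : v = 0 := by
  obtain ⟨k, hk⟩ := h
  have : ∀ j : ℕ, (A ^ j) v = v := by
    intro j
    induction j with
    | zero => simp
    | succ j ih => rw [pow_succ, Module.End.mul_apply, hv, ih]
  have h2 := this k
  rw [hk] at h2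
  simpa using h2.symm

omit [FiniteDimensional K V] in
lemma isNilpotent_smul {A : End K V} (h : IsNilpotent A) (c : K) : IsNilpotent (c • A) := by
  obtain ⟨k, hk⟩ := h
  exact ⟨k, by rw [smul_pow, hk, smul_zero]⟩

/-- If all `s + t z` are nilpotent and the field is large, then `z` is nilpotent. -/
lemma isNilpotent_direction {s z : End K V} (T : Finset K) (hT0 : (0 : K) ∉ T)
    (hT : finrank K V < T.card) (h : ∀ t : K, IsNilpotent (s + t • z)) : IsNilpotent z := by
  refine ⟨finrank K V, ?_⟩
  ext v
  rw [LinearMap.zero_apply, ← Module.forall_dual_apply_eq_zero_iff K]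
  intro ξ
  have hpoly := (PolyDeg.pow_affine z s v (finrank K V)).map ξ
  have := hpoly.zero_of_forall T hT (fun t ht => by
    have ht0 : t ≠ 0 := fun h0 => hT0 (h0 ▸ ht)
    have h1 : IsNilpotent (z + t • s) := by
      have : z + t • s = t • (s + t⁻¹ • z) := by
        rw [smul_add, smul_smul, mul_inv_cancel₀ ht0, one_smul, add_comm]
      rw [this]
      exact isNilpotent_smul (h _) _
    rw [pow_finrank_eq_zero h1]
    simp)
  simpa using this

omit [FiniteDimensional K V] in
lemma pow_rankOne_apply (w : End K V) (e : V) (φ : Dual K V) (j : ℕ) :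
    ((w + φ.smulRight e) ^ j) e = (w ^ j) e +
      ∑ i ∈ Finset.range j, φ (((w + φ.smulRight e) ^ i) e) • (w ^ (j - 1 - i)) e := by
  induction j with
  | zero => simp
  | succ j ih =>
    have key : ((w + φ.smulRight e) ^ (j + 1)) e = w (((w + φ.smulRight e) ^ j) e) +
        φ (((w + φ.smulRight e) ^ j) e) • e := by
      rw [pow_succ', Module.End.mul_apply, LinearMap.add_apply, LinearMap.smulRight_apply]
    rw [key, Finset.sum_range_succ]
    have h1 : w (((w + φ.smulRight e) ^ j) e) = (w ^ (j + 1)) e +
      ∑ i ∈ Finset.range j, φ (((w + φ.smulRight e) ^ i) e) • (w ^ (j + 1 - 1 - i)) e := by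
      conv_lhs => rw [ih]
      rw [map_add, map_sum, ← Module.End.mul_apply, ← pow_succ']
      congr 1
      apply Finset.sum_congr rfl
      intro i hi
      simp only [Finset.mem_range] at hi
      rw [map_smul, ← Module.End.mul_apply, ← pow_succ']
      congr 3
      omega
    rw [h1, add_assoc]
    congr 2
    simp

omit [FiniteDimensional K V] in
/-- Key trace-type identity: if `w` and `w + e ⊗ φ` are nilpotent then `φ (w ^ j e) = 0`. -/
lemma phi_pow_eq_zero {w : End K V} {e : V} {φ : Dual K V} (hw : IsNilpotent w)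
    (hwy : IsNilpotent (w + φ.smulRight e)) (j : ℕ) : φ ((w ^ j) e) = 0 := by
  classical
  obtain ⟨N1, hN1⟩ := hw
  obtain ⟨N2, hN2⟩ := hwy
  set u := w + φ.smulRight e with hu
  have hrec : ∀ j, φ ((u ^ j) e) = φ ((w ^ j) e) +
      ∑ i ∈ Finset.range j, φ ((u ^ i) e) * φ ((w ^ (j - 1 - i)) e) := by
    intro j
    have := congrArg φ (pow_rankOne_apply w e φ j)
    rw [map_add, map_sum] at this
    simpa [hu] using this
  have ha : ∀ j, N1 ≤ j → φ ((w ^ j) e) = 0 := by
    intro j hj
    rw [pow_eq_zero_of_le hj hN1]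
    simp
  have hb : ∀ j, N2 ≤ j → φ ((u ^ j) e) = 0 := by
    intro j hj
    rw [pow_eq_zero_of_le hj hN2]
    simp
  by_contra hne
  -- the largest index with nonzero `φ (w ^ i e)`
  have hexI : ∃ I, φ ((w ^ I) e) ≠ 0 ∧ ∀ i, I < i → φ ((w ^ i) e) = 0 := by
    let P : ℕ → Prop := fun i => φ ((w ^ i) e) ≠ 0
    have hjN : j ≤ N1 := by
      by_contra h
      exact hne (ha j (by omega))
    refine ⟨Nat.findGreatest P N1, Nat.findGreatest_spec (P := P) hjN hne, fun i hi => ?_⟩
    by_contra h
    rcases Nat.lt_or_ge N1 i with h1 | h1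
    · exact h (ha i h1.le)
    · exact absurd (Nat.le_findGreatest (P := P) h1 h) (by omega)
  have hexJ : ∃ J, φ ((u ^ J) e) ≠ 0 ∧ ∀ i, J < i → φ ((u ^ i) e) = 0 := by
    have hne' : ∃ J, φ ((u ^ J) e) ≠ 0 := by
      by_contra hall
      push Not at hall
      have := hrec j
      rw [hall j, Finset.sum_eq_zero (fun i _ => by rw [hall i, zero_mul]), add_zero] at this
      exact hne this.symm
    obtain ⟨J0, hJ0⟩ := hne'
    let P : ℕ → Prop := fun i => φ ((u ^ i) e) ≠ 0
    have hjN : J0 ≤ N2 := by
      by_contra h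
      exact hJ0 (hb J0 (by omega))
    refine ⟨Nat.findGreatest P N2, Nat.findGreatest_spec (P := P) hjN hJ0, fun i hi => ?_⟩
    by_contra h
    rcases Nat.lt_or_ge N2 i with h1 | h1
    · exact h (hb i h1.le)
    · exact absurd (Nat.le_findGreatest (P := P) h1 h) (by omega)
  obtain ⟨I, hI, hI'⟩ := hexI
  obtain ⟨J, hJ, hJ'⟩ := hexJ
  have h := hrec (I + J + 1)
  rw [hJ' _ (by omega), hI' _ (by omega), zero_add, Finset.sum_eq_single J] at h
  · have h3 : I + J + 1 - 1 - J = I := by omega
    rw [h3] at h
    exact (mul_ne_zero hJ hI) h.symm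
  · intro i hi hiJ
    rcases Nat.lt_or_gt_of_ne hiJ with h1 | h1
    · rw [hI' (I + J + 1 - 1 - i) (by omega), mul_zero]
    · rw [hJ' i h1, zero_mul]
  · intro hJm
    exact absurd (Finset.mem_range.2 (by omega)) hJm

lemma finrank_map_add_inf_ker {M : Type v} [AddCommGroup M] [Module K M] [FiniteDimensional K M]
    {N : Type w} [AddCommGroup N] [Module K N] (p : Submodule K M) (f : M →ₗ[K] N) :
    finrank K (p.map f) + finrank K (p ⊓ LinearMap.ker f : Submodule K M) = finrank K p := by
  have h1 := (f.domRestrict p).finrank_range_add_finrank_ker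
  rw [LinearMap.range_domRestrict] at h1
  have h2 : finrank K (LinearMap.ker (f.domRestrict p)) =
      finrank K (p ⊓ LinearMap.ker f : Submodule K M) := by
    rw [← Submodule.finrank_map_subtype_eq p, ← Submodule.map_comap_subtype]
    rfl
  rw [← h2]
  exact h1

end Nilp

section Core

variable {K : Type u} [Field K] {V : Type v} [AddCommGroup V] [Module K V]

/-- The orbit space `Z e = {z e : z ∈ Z}`. -/
def orb (Z : Submodule K (End K V)) (e : V) : Submodule K V := Z.map (LinearMap.applyₗ e)

lemma mem_orb {Z : Submodule K (End K V)} {e x : V} : x ∈ orb Z e ↔ ∃ z ∈ Z, z e = x := by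
  rw [orb, Submodule.mem_map]
  rfl

/-- The space of forms `φ` with `e ⊗ φ ∈ Z`. -/
def Phi (Z : Submodule K (End K V)) (e : V) : Submodule K (Dual K V) :=
  Z.comap ((LinearMap.smulRightₗ (R := K) (M := V) (M₂ := V)).flip e)

lemma mem_Phi {Z : Submodule K (End K V)} {e : V} {φ : Dual K V} :
    φ ∈ Phi Z e ↔ φ.smulRight e ∈ Z := by
  simp only [Phi, Submodule.mem_comap, LinearMap.flip_apply]
  rfl

/-- The operators induced on `V / K e` by the elements of `Z` killing `e`. -/
def Zbar (Z : Submodule K (End K V)) (e : V) : Submodule K (End K (V ⧸ (K ∙ e))) where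
  carrier := {B | ∃ z ∈ Z, z e = 0 ∧ B ∘ₗ (K ∙ e).mkQ = (K ∙ e).mkQ ∘ₗ z}
  zero_mem' := ⟨0, Z.zero_mem, by simp, by simp⟩
  add_mem' := by
    rintro B B' ⟨z, hz, hze, hB⟩ ⟨z', hz', hze', hB'⟩
    refine ⟨z + z', Z.add_mem hz hz', by simp [hze, hze'], ?_⟩
    rw [LinearMap.add_comp, hB, hB', LinearMap.comp_add]
  smul_mem' := by
    rintro c B ⟨z, hz, hze, hB⟩
    refine ⟨c • z, Z.smul_mem c hz, by simp [hze], ?_⟩
    rw [LinearMap.smul_comp, hB, LinearMap.comp_smul]

variable [FiniteDimensional K V]

lemma finrank_decomp (Z : Submodule K (End K V)) (e : V) :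
    finrank K Z ≤ finrank K (orb Z e) + finrank K (Phi Z e) + finrank K (Zbar Z e) := by
  have h1 := finrank_map_add_inf_ker (K := K) (M := End K V) (N := V) Z (LinearMap.applyₗ e)
  set Z0 : Submodule K (End K V) := Z ⊓ LinearMap.ker (LinearMap.applyₗ e) with hZ0
  let L : (End K V) →ₗ[K] (V →ₗ[K] V ⧸ (K ∙ e)) := LinearMap.compRight K (K ∙ e).mkQ
  have h2 := finrank_map_add_inf_ker Z0 L
  have hmem : ∀ z ∈ Z0, z ∈ Z ∧ z e = 0 := by
    intro z hz
    rw [hZ0, Submodule.mem_inf, LinearMap.mem_ker] at hz
    exact ⟨hz.1, hz.2⟩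
  have h3 : finrank K (Z0.map L) ≤ finrank K (Zbar Z e) := by
    have hle : Z0.map L ≤ (Zbar Z e).map (LinearMap.lcomp K (V ⧸ (K ∙ e)) (K ∙ e).mkQ) := by
      rintro _ ⟨z, hz, rfl⟩
      obtain ⟨hzZ, hze⟩ := hmem z hz
      have hk : K ∙ e ≤ (K ∙ e).comap z := by
        rw [Submodule.span_singleton_le_iff_mem, Submodule.mem_comap, hze]
        exact Submodule.zero_mem _
      refine ⟨(K ∙ e).mapQ (K ∙ e) z hk, ⟨z, hzZ, hze, ?_⟩, ?_⟩
      · ext x
        rfl
      · ext x
        rfl
    exact (Submodule.finrank_mono hle).trans (Submodule.finrank_map_le _ _)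
  have h4 : finrank K (Z0 ⊓ LinearMap.ker L : Submodule K (End K V)) ≤ finrank K (Phi Z e) := by
    have hle : (Z0 ⊓ LinearMap.ker L : Submodule K (End K V)) ≤
        (Phi Z e).map ((LinearMap.smulRightₗ (R := K) (M := V) (M₂ := V)).flip e) := by
      intro z hz
      obtain ⟨hz1, hz2⟩ := Submodule.mem_inf.1 hz
      obtain ⟨hzZ, hze⟩ := hmem z hz1
      rw [LinearMap.mem_ker] at hz2
      have hrange : ∀ x, z x ∈ K ∙ e := by
        intro x
        have := LinearMap.congr_fun hz2 x
        change (K ∙ e).mkQ (z x) = 0 at this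
        rwa [Submodule.mkQ_apply, Submodule.Quotient.mk_eq_zero] at this
      by_cases he : e = 0
      · refine ⟨0, ?_, ?_⟩
        · exact Submodule.zero_mem _
        · ext x
          have := hrange x
          rw [he, Submodule.span_zero_singleton, Submodule.mem_bot] at this
          simp [this]
      · -- coordinate along `e`
        obtain ⟨ξ, hξ⟩ := Module.Projective.exists_dual_eq_one K he
        refine ⟨ξ ∘ₗ z, ?_, ?_⟩
        · change (LinearMap.smulRight (ξ ∘ₗ z) e : End K V) ∈ Z
          have : (LinearMap.smulRight (ξ ∘ₗ z) e : End K V) = z := by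
            ext x
            obtain ⟨c, hc⟩ := Submodule.mem_span_singleton.1 (hrange x)
            rw [LinearMap.smulRight_apply, LinearMap.comp_apply, ← hc, map_smul, hξ]
            simp
          rw [this]
          exact hzZ
        · change (LinearMap.smulRight (ξ ∘ₗ z) e : End K V) = z
          ext x
          obtain ⟨c, hc⟩ := Submodule.mem_span_singleton.1 (hrange x)
          rw [LinearMap.smulRight_apply, LinearMap.comp_apply, ← hc, map_smul, hξ]
          simp
    exact (Submodule.finrank_mono hle).trans (Submodule.finrank_map_le _ _)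
  have h5 : finrank K (orb Z e) = finrank K (Z.map (LinearMap.applyₗ e)) := rfl
  omega

omit [FiniteDimensional K V] in
lemma e_notMem_orb {Z : Submodule K (End K V)} (hZ : ∀ z ∈ Z, IsNilpotent z) {e : V}
    (he : e ≠ 0) : e ∉ orb Z e := by
  intro h
  obtain ⟨z, hz, hze⟩ := mem_orb.1 h
  exact he (eq_zero_of_fix (hZ z hz) hze)

lemma finrank_sup_span {p : Submodule K V} {e : V} (he : e ∉ p) :
    finrank K ((K ∙ e) ⊔ p : Submodule K V) = finrank K p + 1 := by
  have he0 : e ≠ 0 := fun h => he (h ▸ p.zero_mem)
  have h := Submodule.finrank_sup_add_finrank_inf_eq (K ∙ e) p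
  have h2 : (K ∙ e) ⊓ p = ⊥ := by
    rw [eq_bot_iff]
    intro x hx
    obtain ⟨hx1, hx2⟩ := Submodule.mem_inf.1 hx
    obtain ⟨c, rfl⟩ := Submodule.mem_span_singleton.1 hx1
    by_cases hc : c = 0
    · simp [hc]
    · exfalso
      apply he
      have := p.smul_mem c⁻¹ hx2
      rwa [smul_smul, inv_mul_cancel₀ hc, one_smul] at this
  rw [h2, finrank_bot, add_zero, finrank_span_singleton he0] at h
  omega

omit [FiniteDimensional K V] in
lemma Phi_le (Z : Submodule K (End K V)) (hZ : ∀ z ∈ Z, IsNilpotent z) (e : V) :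
    Phi Z e ≤ ((K ∙ e) ⊔ orb Z e).dualAnnihilator := by
  intro φ hφ
  rw [mem_Phi] at hφ
  rw [Submodule.mem_dualAnnihilator]
  intro x hx
  obtain ⟨y, hy, y', hy', rfl⟩ := Submodule.mem_sup.1 hx
  obtain ⟨c, rfl⟩ := Submodule.mem_span_singleton.1 hy
  obtain ⟨z, hz, rfl⟩ := mem_orb.1 hy'
  have h1 := phi_pow_eq_zero (hZ z hz) (hZ _ (Z.add_mem hz hφ)) 1
  have h0 := phi_pow_eq_zero (hZ z hz) (hZ _ (Z.add_mem hz hφ)) 0
  simp only [pow_one, pow_zero, Module.End.one_apply] at h1 h0
  rw [map_add, map_smul, h1, h0]
  simp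

/-- F1. -/
lemma F1 (Z : Submodule K (End K V)) (hZ : ∀ z ∈ Z, IsNilpotent z) {e : V} (he : e ≠ 0) :
    finrank K (orb Z e) + finrank K (Phi Z e) + 1 ≤ finrank K V := by
  have h1 := Submodule.finrank_mono (Phi_le Z hZ e)
  have h2 := finrank_sup_span (e_notMem_orb hZ he)
  have h3 := Subspace.finrank_add_finrank_dualAnnihilator_eq ((K ∙ e) ⊔ orb Z e)
  omega

/-- Openness of rank, in the form used below. -/
lemma open_rank (s y : End K V) (x : V) (hx : x ∉ LinearMap.range s) (T : Finset K)
    (hT : finrank K (LinearMap.range s) + 1 < T.card) :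
    ∃ t ∈ T, finrank K (LinearMap.range s) + 1 ≤
      finrank K (LinearMap.range (s + t • y) ⊔ (K ∙ x) : Submodule K V) := by
  classical
  set r := finrank K (LinearMap.range s) with hr
  let b := Module.finBasis K (LinearMap.range s)
  have hpre : ∀ i, ∃ u, s u = b i := fun i => LinearMap.mem_range.1 (b i).2
  choose u hu using hpre
  let f : Option (Fin r) → K → V := fun o t => o.casesOn' x (fun i => (s + t • y) (u i))
  have hf : ∀ i, PolyDeg 1 (f i) := by
    intro i
    cases i with
    | none => exact (PolyDeg.const x).mono (Nat.zero_le 1)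
    | some i => exact (PolyDeg.const (u i)).affine s y
  have hli : LinearIndependent K (fun i => s (u i)) := by
    have h1 : LinearIndependent K (fun i => ((b i : LinearMap.range s) : V)) :=
      b.linearIndependent.map' (LinearMap.range s).subtype (Submodule.ker_subtype _)
    have h2 : (fun i => s (u i)) = (fun i => ((b i : LinearMap.range s) : V)) := funext hu
    rw [h2]
    exact h1
  have h0 : LinearIndependent K (fun i => f i 0) := by
    have h1 : x ∉ Submodule.span K (Set.range (fun i => s (u i))) := by
      intro h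
      apply hx
      have hle : Submodule.span K (Set.range (fun i => s (u i))) ≤ LinearMap.range s := by
        rw [Submodule.span_le]
        rintro _ ⟨i, rfl⟩
        exact ⟨u i, rfl⟩
      exact hle h
    have h2 := LinearIndependent.option hli h1
    have h3 : (fun i => f i 0) = (fun o => Option.casesOn' o x (fun i => s (u i))) := by
      funext o
      cases o with
      | none => rfl
      | some i => simp [f]
    rw [h3]
    exact h2
  obtain ⟨t, ht, hli2⟩ := exists_linearIndependent f 1 hf h0 T (by simpa using hT)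
  refine ⟨t, ht, ?_⟩
  have hmem : ∀ o, f o t ∈ (LinearMap.range (s + t • y) ⊔ (K ∙ x) : Submodule K V) := by
    intro o
    cases o with
    | none => exact Submodule.mem_sup_right (Submodule.mem_span_singleton_self x)
    | some i => exact Submodule.mem_sup_left ⟨u i, rfl⟩
  have hli3 : LinearIndependent K (fun o => (⟨f o t, hmem o⟩ :
      (LinearMap.range (s + t • y) ⊔ (K ∙ x) : Submodule K V))) := by
    apply LinearIndependent.of_comp (Submodule.subtype _)
    exact hli2
  have := hli3.fintype_card_le_finrank
  simpa using this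

/-- If `s` has maximal rank along the line `s + t z`, then `z` maps `ker s` into `range s`. -/
lemma apply_mem_range (s z : End K V) (e : V) (hse : s e = 0) (T : Finset K)
    (hT0 : (0 : K) ∉ T) (hT : finrank K (LinearMap.range s) + 1 < T.card)
    (hmax : ∀ t : K, finrank K (LinearMap.range (s + t • z)) ≤ finrank K (LinearMap.range s)) :
    z e ∈ LinearMap.range s := by
  by_contra hne
  obtain ⟨t, ht, h⟩ := open_rank s z (z e) hne T hT
  have ht0 : t ≠ 0 := fun h0 => hT0 (h0 ▸ ht)
  have hmem : (K ∙ (z e)) ≤ LinearMap.range (s + t • z) := by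
    rw [Submodule.span_singleton_le_iff_mem]
    refine ⟨t⁻¹ • e, ?_⟩
    rw [map_smul, LinearMap.add_apply, hse, zero_add, LinearMap.smul_apply, smul_smul,
      inv_mul_cancel₀ ht0, one_smul]
  rw [sup_eq_left.2 hmem] at h
  have := hmax t
  omega

/-- `φ` kills `s⁻¹ (Z e)` for `e ⊗ φ ∈ Z`, when `s` has maximal rank, `s e = 0`,
`e ∉ range s`. -/
lemma Phi_le_comap (Z : Submodule K (End K V)) (hZ : ∀ z ∈ Z, IsNilpotent z) (s : End K V)
    (e : V) (hse : s e = 0) (he : e ∉ LinearMap.range s) (T : Finset K)
    (hT0 : (0 : K) ∉ T) (hT : finrank K V < T.card)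
    (hmax : ∀ z ∈ Z, finrank K (LinearMap.range (s + z)) ≤ finrank K (LinearMap.range s)) :
    orb Z e ≤ LinearMap.range s ∧ Phi Z e ≤ ((orb Z e).comap s).dualAnnihilator := by
  have he0 : e ≠ 0 := fun h => he (h ▸ Submodule.zero_mem _)
  have hrk : ∀ s' : End K V, s' e = 0 → finrank K (LinearMap.range s') + 1 ≤ finrank K V := by
    intro s' hs'
    have h1 := LinearMap.finrank_range_add_finrank_ker s'
    have h2 : 0 < finrank K (LinearMap.ker s') := by
      rw [Module.finrank_pos_iff_exists_ne_zero]
      exact ⟨⟨e, hs'⟩, fun h => he0 (congrArg Subtype.val h)⟩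
    omega
  have ha : ∀ z ∈ Z, z e ∈ LinearMap.range s := by
    intro z hz
    exact apply_mem_range s z e hse T hT0 (lt_of_le_of_lt (hrk s hse) hT)
      (fun t => hmax _ (Z.smul_mem t hz))
  refine ⟨?_, ?_⟩
  · intro x hx
    obtain ⟨z, hz, rfl⟩ := mem_orb.1 hx
    exact ha z hz
  intro φ hφ
  rw [mem_Phi] at hφ
  set s1 : End K V := s + φ.smulRight e with hs1
  have hφe : φ e = 0 := by
    have := phi_pow_eq_zero (w := (0 : End K V)) (e := e) (φ := φ) IsNilpotent.zero
      (by rw [zero_add]; exact hZ _ hφ) 0
    simpa using this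
  have hs1e : s1 e = 0 := by
    simp [hs1, hse, hφe]
  -- rank computation
  have hsup : LinearMap.range s ⊔ (K ∙ e) ≤ LinearMap.range s1 ⊔ (K ∙ e) := by
    apply sup_le _ le_sup_right
    rintro _ ⟨u, rfl⟩
    have : s u = s1 u + (-(φ u)) • e := by
      simp [hs1]
    rw [this]
    exact Submodule.add_mem_sup ⟨u, rfl⟩
      (Submodule.smul_mem _ _ (Submodule.mem_span_singleton_self e))
  have hfr : finrank K (LinearMap.range s) + 1 ≤
      finrank K (LinearMap.range s1 ⊔ (K ∙ e) : Submodule K V) := by
    have h1 := finrank_sup_span he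
    rw [sup_comm] at h1
    rw [← h1]
    exact Submodule.finrank_mono hsup
  have hs1le : finrank K (LinearMap.range s1) ≤ finrank K (LinearMap.range s) := hmax _ hφ
  have he1 : e ∉ LinearMap.range s1 := by
    intro h
    rw [sup_eq_left.2 ((Submodule.span_singleton_le_iff_mem _ _).2 h)] at hfr
    omega
  have hs1eq : finrank K (LinearMap.range s1) = finrank K (LinearMap.range s) := by
    have := finrank_sup_span he1
    rw [sup_comm] at this
    omega
  have hkerφ : ∀ x, s x = 0 → φ x = 0 := by
    intro x hx
    by_contra hφx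
    apply he1
    refine ⟨(φ x)⁻¹ • x, ?_⟩
    rw [map_smul, hs1, LinearMap.add_apply, hx, zero_add, LinearMap.smulRight_apply, smul_smul,
      inv_mul_cancel₀ hφx, one_smul]
  have hb : ∀ z ∈ Z, z e ∈ LinearMap.range s1 := by
    intro z hz
    apply apply_mem_range s1 z e hs1e T hT0 (lt_of_le_of_lt (hrk s1 hs1e) hT)
    intro t
    rw [hs1eq, hs1, add_assoc]
    exact hmax _ (Z.add_mem hφ (Z.smul_mem t hz))
  rw [Submodule.mem_dualAnnihilator]
  intro u hu
  obtain ⟨z, hz, hzu⟩ := mem_orb.1 (Submodule.mem_comap.1 hu)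
  obtain ⟨u', hu'⟩ := hb z hz
  have h1 : s u' + φ u' • e = z e := by
    rw [← hu', hs1]
    rfl
  have h2 : φ u' = 0 := by
    by_contra hne
    apply he
    obtain ⟨u2, hu2⟩ := ha z hz
    refine ⟨(φ u')⁻¹ • (u2 - u'), ?_⟩
    rw [map_smul, map_sub, hu2, ← h1, add_sub_cancel_left, smul_smul, inv_mul_cancel₀ hne,
      one_smul]
  have h3 : s (u - u') = 0 := by
    rw [map_sub, ← hzu, ← h1, h2]
    simp
  have h4 := hkerφ _ h3
  rw [map_sub, h2, sub_zero] at h4
  exact h4

lemma finrank_comap (s : End K V) (q : Submodule K V) (hq : q ≤ LinearMap.range s) :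
    finrank K (q.comap s) + finrank K (LinearMap.range s) = finrank K q + finrank K V := by
  have h1 := finrank_map_add_inf_ker (q.comap s) s
  rw [Submodule.map_comap_eq, inf_eq_right.2 hq] at h1
  have h2 : (q.comap s ⊓ LinearMap.ker s : Submodule K V) = LinearMap.ker s := by
    rw [inf_eq_right]
    intro x hx
    rw [Submodule.mem_comap, LinearMap.mem_ker.1 hx]
    exact q.zero_mem
  rw [h2] at h1
  have h3 := LinearMap.finrank_range_add_finrank_ker s
  omega

/-- F2. -/
lemma F2 (Z : Submodule K (End K V)) (hZ : ∀ z ∈ Z, IsNilpotent z) (s : End K V)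
    (e : V) (hse : s e = 0) (he : e ∉ LinearMap.range s) (T : Finset K)
    (hT0 : (0 : K) ∉ T) (hT : finrank K V < T.card)
    (hmax : ∀ z ∈ Z, finrank K (LinearMap.range (s + z)) ≤ finrank K (LinearMap.range s)) :
    finrank K (orb Z e) + finrank K (Phi Z e) ≤ finrank K (LinearMap.range s) := by
  obtain ⟨h1, h2⟩ := Phi_le_comap Z hZ s e hse he T hT0 hT hmax
  have h3 := finrank_comap s _ h1
  have h4 := Submodule.finrank_mono h2
  have h5 := Subspace.finrank_add_finrank_dualAnnihilator_eq ((orb Z e).comap s)
  omega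

lemma exists_preimage (Z : Submodule K (End K V)) (s : End K V) (e : V) (Q : Submodule K V)
    (hQ : Q.dualAnnihilator ≤ Phi Z e) (he0 : e ≠ 0) (he : e ∈ LinearMap.range s)
    (hmin : ∀ z ∈ Z, finrank K (LinearMap.range s) ≤ finrank K (LinearMap.range (s + z))) :
    ∃ q ∈ Q, s q = e := by
  obtain ⟨x, hx⟩ := he
  by_cases hxQ : x ∈ Q ⊔ LinearMap.ker s
  · obtain ⟨q, hq, κ, hκ, hsum⟩ := Submodule.mem_sup.1 hxQ
    refine ⟨q, hq, ?_⟩
    rw [← hx, ← hsum, map_add, LinearMap.mem_ker.1 hκ, add_zero]
  · exfalso
    obtain ⟨f, hfx, hf⟩ := Submodule.exists_dual_map_eq_bot_of_notMem hxQ inferInstance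
    have hf0 : ∀ y ∈ Q ⊔ LinearMap.ker s, f y = 0 := by
      intro y hy
      have : f y ∈ (Q ⊔ LinearMap.ker s).map f := ⟨y, hy, rfl⟩
      rw [hf] at this
      simpa using this
    set φ : Dual K V := (-(f x)⁻¹) • f with hφ
    have hφx : φ x = -1 := by
      simp [hφ, inv_mul_cancel₀ hfx]
    have hφ0 : ∀ y ∈ Q ⊔ LinearMap.ker s, φ y = 0 := by
      intro y hy
      simp [hφ, hf0 y hy]
    have hφPhi : φ ∈ Phi Z e := by
      apply hQ
      rw [Submodule.mem_dualAnnihilator]
      intro y hy
      exact hφ0 y (Submodule.mem_sup_left hy)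
    rw [mem_Phi] at hφPhi
    have hm := hmin _ hφPhi
    set s1 : End K V := s + φ.smulRight e with hs1
    have hle : (K ∙ x) ⊔ LinearMap.ker s ≤ LinearMap.ker s1 := by
      apply sup_le
      · rw [Submodule.span_singleton_le_iff_mem, LinearMap.mem_ker, hs1, LinearMap.add_apply,
          LinearMap.smulRight_apply, hφx, hx]
        simp
      · intro y hy
        rw [LinearMap.mem_ker, hs1, LinearMap.add_apply, LinearMap.smulRight_apply,
          hφ0 y (Submodule.mem_sup_right hy), LinearMap.mem_ker.1 hy]
        simp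
    have hxker : x ∉ LinearMap.ker s := by
      intro h
      rw [LinearMap.mem_ker, hx] at h
      exact he0 h
    have h1 := finrank_sup_span hxker
    have h2 := Submodule.finrank_mono hle
    have h3 := LinearMap.finrank_range_add_finrank_ker s
    have h4 := LinearMap.finrank_range_add_finrank_ker s1
    omega

/-- F3. -/
lemma F3 (Z : Submodule K (End K V)) (hZ : ∀ z ∈ Z, IsNilpotent z) (s : End K V)
    (e : V) (hse : s e = 0) (he : e ∉ LinearMap.range s) (T : Finset K)
    (hT0 : (0 : K) ∉ T) (hT : finrank K V < T.card)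
    (hmax : ∀ z ∈ Z, finrank K (LinearMap.range (s + z)) ≤ finrank K (LinearMap.range s))
    (z2 : End K V) (hz2 : z2 ∈ Z) (hz2e : z2 e = 0) (he2 : e ∈ LinearMap.range (s + z2))
    (hmin : ∀ z ∈ Z, finrank K (LinearMap.range (s + z2)) ≤
      finrank K (LinearMap.range (s + z2 + z))) :
    finrank K (orb Z e) + finrank K (Phi Z e) + 1 ≤ finrank K (LinearMap.range s) := by
  have he0 : e ≠ 0 := fun h => he (h ▸ Submodule.zero_mem _)
  have hF2 := F2 Z hZ s e hse he T hT0 hT hmax
  by_contra hcon
  have heq : finrank K (orb Z e) + finrank K (Phi Z e) = finrank K (LinearMap.range s) := by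
    omega
  have hrk : finrank K (LinearMap.range s) + 1 ≤ finrank K V := by
    have h1 := LinearMap.finrank_range_add_finrank_ker s
    have h2 : 0 < finrank K (LinearMap.ker s) := by
      rw [Module.finrank_pos_iff_exists_ne_zero]
      exact ⟨⟨e, hse⟩, fun h => he0 (congrArg Subtype.val h)⟩
    omega
  obtain ⟨t, ht, hopen⟩ := open_rank s z2 e he T (lt_of_le_of_lt hrk hT)
  have ht0 : t ≠ 0 := fun h0 => hT0 (h0 ▸ ht)
  set st : End K V := s + t • z2 with hst
  have hste : st e = 0 := by simp [hst, hse, hz2e]
  have hstle : finrank K (LinearMap.range st) ≤ finrank K (LinearMap.range s) :=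
    hmax _ (Z.smul_mem t hz2)
  have het : e ∉ LinearMap.range st := by
    intro h
    rw [sup_eq_left.2 ((Submodule.span_singleton_le_iff_mem _ _).2 h)] at hopen
    omega
  have hsteq : finrank K (LinearMap.range st) = finrank K (LinearMap.range s) := by
    have := finrank_sup_span het
    rw [sup_comm] at this
    omega
  have hmaxt : ∀ z ∈ Z, finrank K (LinearMap.range (st + z)) ≤ finrank K (LinearMap.range st) := by
    intro z hz
    rw [hsteq, hst, add_assoc]
    exact hmax _ (Z.add_mem (Z.smul_mem t hz2) hz)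
  obtain ⟨h1, h2⟩ := Phi_le_comap Z hZ s e hse he T hT0 hT hmax
  obtain ⟨h1t, h2t⟩ := Phi_le_comap Z hZ st e hste het T hT0 hT hmaxt
  have h3 := finrank_comap s _ h1
  have h3t := finrank_comap st _ h1t
  have h5 := Subspace.finrank_add_finrank_dualAnnihilator_eq ((orb Z e).comap s)
  have h5t := Subspace.finrank_add_finrank_dualAnnihilator_eq ((orb Z e).comap st)
  have e1 : Phi Z e = ((orb Z e).comap s).dualAnnihilator :=
    Submodule.eq_of_le_of_finrank_eq h2 (by omega)
  have e2 : Phi Z e = ((orb Z e).comap st).dualAnnihilator :=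
    Submodule.eq_of_le_of_finrank_eq h2t (by omega)
  have e3 : (orb Z e).comap s = (orb Z e).comap st := by
    apply Subspace.dualAnnihilator_inj.1
    rw [← e1, ← e2]
  obtain ⟨q, hq, hsq⟩ := exists_preimage Z (s + z2) e ((orb Z e).comap s) e1.ge he0 he2 hmin
  have hq1 : s q ∈ orb Z e := hq
  have hq2 : st q ∈ orb Z e := by
    rw [e3] at hq
    exact hq
  have hfin : s q + t⁻¹ • (st q - s q) ∈ orb Z e :=
    (orb Z e).add_mem hq1 ((orb Z e).smul_mem _ ((orb Z e).sub_mem hq2 hq1))
  have : s q + t⁻¹ • (st q - s q) = e := by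
    rw [← hsq, hst, LinearMap.add_apply, LinearMap.add_apply, add_sub_cancel_left,
      LinearMap.smul_apply, smul_smul, inv_mul_cancel₀ ht0, one_smul]
  rw [this] at hfin
  exact e_notMem_orb hZ he0 hfin

/-- The (polynomial) inverse of `1 - w` for nilpotent `w`. -/
noncomputable def G (w : End K V) : End K V := ∑ j ∈ Finset.range (finrank K V), w ^ j

lemma one_sub_mul_G {w : End K V} (hw : IsNilpotent w) : (1 - w) * G w = 1 := by
  rw [G, mul_neg_geom_sum, pow_finrank_eq_zero hw, sub_zero]

lemma G_mul_one_sub {w : End K V} (hw : IsNilpotent w) : G w * (1 - w) = 1 := by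
  rw [G, geom_sum_mul_neg, pow_finrank_eq_zero hw, sub_zero]

lemma G_injective {w : End K V} (hw : IsNilpotent w) : Function.Injective (G w) := by
  intro x y hxy
  have h : (1 - w : End K V) (G w x) = (1 - w : End K V) (G w y) := by rw [hxy]
  rw [← Module.End.mul_apply, ← Module.End.mul_apply, one_sub_mul_G hw] at h
  exact h

/-- Resolvent identity. -/
lemma G_sub_G {a b : End K V} (ha : IsNilpotent a) (hb : IsNilpotent b) :
    G b = G a + G a * (b - a) * G b := by
  have h1 := one_sub_mul_G hb
  have h2 := G_mul_one_sub ha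
  have : G a * (b - a) * G b = (G a * (1 - a)) * G b - G a * ((1 - b) * G b) := by
    noncomm_ring
  rw [this, h1, h2]
  simp

omit [FiniteDimensional K V] in
lemma polyDeg_G_apply (A B : End K V) (v : V) :
    PolyDeg (finrank K V - 1) (fun t : K => G (A + t • B) v) := by
  have : (fun t : K => G (A + t • B) v) =
      fun t : K => ∑ j ∈ Finset.range (finrank K V), ((A + t • B) ^ j) v := by
    funext t
    rw [G, LinearMap.sum_apply]
  rw [this]
  apply PolyDeg.sum
  intro j hj
  simp only [Finset.mem_range] at hj
  exact (PolyDeg.pow_affine A B v j).mono (by omega)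

/-- F4. -/
lemma F4 (Z : Submodule K (End K V)) (hZ : ∀ z ∈ Z, IsNilpotent z) (s : End K V)
    (hnil : ∀ z ∈ Z, IsNilpotent (s + z))
    (e : V) (he0 : e ≠ 0) (hse : s e = 0) (he : e ∈ LinearMap.range s) (T : Finset K)
    (hT0 : (0 : K) ∉ T) (hT : finrank K V < T.card)
    (hT2 : finrank K V * (finrank K V - 1) < T.card)
    (hmin : ∀ z ∈ Z, finrank K (LinearMap.range s) ≤ finrank K (LinearMap.range (s + z))) :
    finrank K (orb Z e) + finrank K (Phi Z e) + 2 ≤ finrank K V := by
  classical
  have hF1 := F1 Z hZ he0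
  by_contra hcon
  have heorb := e_notMem_orb hZ he0
  set U : Submodule K V := (K ∙ e) ⊔ orb Z e with hU
  have hUfr : finrank K U = finrank K (orb Z e) + 1 := finrank_sup_span heorb
  have hPhiU : Phi Z e = U.dualAnnihilator := by
    have hle : Phi Z e ≤ U.dualAnnihilator := Phi_le Z hZ e
    apply Submodule.eq_of_le_of_finrank_eq hle
    have h3 := Subspace.finrank_add_finrank_dualAnnihilator_eq U
    have h4 := Submodule.finrank_mono hle
    omega
  have heU : e ∈ U := Submodule.mem_sup_left (Submodule.mem_span_singleton_self e)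
  -- an element of `U` mapped to `e` by `s`
  obtain ⟨u, hu, hsu⟩ := exists_preimage Z s e U hPhiU.ge he0 he hmin
  obtain ⟨y, hy, y', hy', hyy'⟩ := Submodule.mem_sup.1 hu
  obtain ⟨c, rfl⟩ := Submodule.mem_span_singleton.1 hy
  obtain ⟨z1, hz1, rfl⟩ := mem_orb.1 hy'
  have hsz : s (z1 e) = e := by
    rw [← hyy', map_add, map_smul, hse] at hsu
    simpa using hsu
  -- the linear span of `s + Z`
  have hW : ∀ (a : K), ∀ z ∈ Z, IsNilpotent (a • s + z) := by
    intro a z hz
    by_cases ha : a = 0
    · rw [ha, zero_smul, zero_add]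
      exact hZ z hz
    · have : a • s + z = a • (s + a⁻¹ • z) := by
        rw [smul_add, smul_smul, mul_inv_cancel₀ ha, one_smul]
      rw [this]
      exact isNilpotent_smul (hnil _ (Z.smul_mem _ hz)) _
  set W : Submodule K (End K V) := (K ∙ s) ⊔ Z with hWdef
  have hWnil : ∀ w ∈ W, IsNilpotent w := by
    intro w hw
    obtain ⟨y, hy, z, hz, rfl⟩ := Submodule.mem_sup.1 hw
    obtain ⟨a, rfl⟩ := Submodule.mem_span_singleton.1 hy
    exact hW a z hz
  have hsW : s ∈ W := Submodule.mem_sup_left (Submodule.mem_span_singleton_self s)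
  have hZW : Z ≤ W := le_sup_right
  have hPhiW : ∀ φ ∈ U.dualAnnihilator, φ.smulRight e ∈ W := by
    intro φ hφ
    rw [← hPhiU, mem_Phi] at hφ
    exact hZW hφ
  -- `G w e ∈ U` for all `w ∈ W`
  have hGphi : ∀ φ ∈ U.dualAnnihilator, ∀ w ∈ W, φ (G w e) = 0 := by
    intro φ hφ w hw
    rw [G, LinearMap.sum_apply, map_sum]
    apply Finset.sum_eq_zero
    intro j _
    exact phi_pow_eq_zero (hWnil w hw) (hWnil _ (W.add_mem hw (hPhiW φ hφ))) j
  have hGU : ∀ w ∈ W, G w e ∈ U := by
    intro w hw
    rw [← Subspace.forall_mem_dualAnnihilator_apply_eq_zero_iff]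
    intro φ hφ
    exact hGphi φ hφ w hw
  have hdeg : finrank K V - 1 < T.card := by omega
  -- derivative of the previous statement
  have hGwU : ∀ w ∈ W, ∀ w' ∈ W, G w (w' (G w e)) ∈ U := by
    intro w hw w' hw'
    rw [← Subspace.forall_mem_dualAnnihilator_apply_eq_zero_iff]
    intro φ hφ
    have hpoly : PolyDeg (finrank K V - 1)
        (fun t : K => (φ ∘ₗ (G w) ∘ₗ w') (G (w + t • w') e)) :=
      (polyDeg_G_apply w w' e).map _
    have h0 := hpoly.zero_of_forall T hdeg (fun t ht => by
      have ht0 : t ≠ 0 := fun h0 => hT0 (h0 ▸ ht)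
      have hwt : w + t • w' ∈ W := W.add_mem hw (W.smul_mem t hw')
      have hres := G_sub_G (hWnil w hw) (hWnil _ hwt)
      have h1 := congrArg (fun A : End K V => φ (A e)) hres
      simp only [LinearMap.add_apply, map_add, hGphi φ hφ w hw, hGphi φ hφ _ hwt, zero_add,
        add_sub_cancel_left] at h1
      have h2 : (G w * (t • w') * G (w + t • w')) e = t • (G w (w' (G (w + t • w') e))) := by
        simp [Module.End.mul_apply]
      rw [h2, map_smul] at h1
      have h3 := (smul_eq_zero.1 h1.symm).resolve_left ht0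
      exact h3)
    simpa using h0
  -- the polynomial family
  let b := Module.finBasis K (orb Z e)
  have hpre : ∀ i, ∃ z ∈ Z, z e = b i := fun i => mem_orb.1 (b i).2
  choose zb hzb hzbe using hpre
  let vt : K → V := fun t => G (s + t • z1) e
  let f : Option (Fin (finrank K (orb Z e))) → K → V :=
    fun o t => o.casesOn' (G s (z1 (vt t))) (fun i => zb i (vt t))
  have hf : ∀ o, PolyDeg (finrank K V - 1) (f o) := by
    intro o
    cases o with
    | none => exact (polyDeg_G_apply s z1 e).map (G s ∘ₗ z1)
    | some i => exact (polyDeg_G_apply s z1 e).map (zb i)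
  have hsnil : IsNilpotent s := hWnil s hsW
  have hGe : G s e = e := by
    have h := congrArg (fun A : End K V => A e) (G_mul_one_sub hsnil)
    simpa [Module.End.mul_apply, hse] using h
  have hGh : G s (z1 e) = z1 e + e := by
    have h := congrArg (fun A : End K V => A (z1 e)) (G_mul_one_sub hsnil)
    simp only [Module.End.mul_apply, LinearMap.sub_apply, Module.End.one_apply, map_sub, hsz,
      hGe] at h
    rw [sub_eq_iff_eq_add] at h
    exact h
  have hvt0 : vt 0 = e := by
    simp only [vt, zero_smul, add_zero, hGe]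
  have h0 : LinearIndependent K (fun o => f o 0) := by
    have hli : LinearIndependent K (fun i => ((b i : orb Z e) : V)) :=
      b.linearIndependent.map' (orb Z e).subtype (Submodule.ker_subtype _)
    have hspan : Submodule.span K (Set.range (fun i => ((b i : orb Z e) : V))) ≤ orb Z e := by
      rw [Submodule.span_le]
      rintro _ ⟨i, rfl⟩
      exact (b i).2
    have h1 : z1 e + e ∉ Submodule.span K (Set.range (fun i => ((b i : orb Z e) : V))) := by
      intro h
      apply heorb
      have := (orb Z e).sub_mem (hspan h) (mem_orb.2 ⟨z1, hz1, rfl⟩)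
      simpa using this
    have h2 := LinearIndependent.option hli h1
    have h3 : (fun o => f o 0) =
        (fun o => Option.casesOn' o (z1 e + e) (fun i => ((b i : orb Z e) : V))) := by
      funext o
      cases o with
      | none =>
        change G s (z1 (vt 0)) = z1 e + e
        rw [hvt0, hGh]
      | some i =>
        change zb i (vt 0) = _
        rw [hvt0]
        exact hzbe i
    rw [h3]
    exact h2
  have hcard : Fintype.card (Option (Fin (finrank K (orb Z e)))) * (finrank K V - 1) < T.card := by
    rw [Fintype.card_option, Fintype.card_fin]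
    refine lt_of_le_of_lt (Nat.mul_le_mul_right _ ?_) hT2
    omega
  obtain ⟨t, ht, hli⟩ := exists_linearIndependent f (finrank K V - 1) hf h0 T hcard
  have ht0 : t ≠ 0 := fun h0 => hT0 (h0 ▸ ht)
  set w : End K V := s + t • z1 with hw
  have hwW : w ∈ W := W.add_mem hsW (W.smul_mem t (hZW hz1))
  have hwnil := hWnil w hwW
  set v : V := vt t with hv
  have hvG : v = G w e := rfl
  have hve : v - w v = e := by
    have h := congrArg (fun A : End K V => A e) (one_sub_mul_G hwnil)
    simpa [Module.End.mul_apply, hvG] using h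
  -- all members of the family lie in `W v`
  have hmem : ∀ o, f o t ∈ orb W v := by
    intro o
    cases o with
    | none =>
      -- `G s (z1 v) = t⁻¹ • w v`
      have hres := G_sub_G hsnil hwnil
      have h1 := congrArg (fun A : End K V => A e) hres
      simp only [LinearMap.add_apply, hGe, ← hvG] at h1
      have h2 : (G s * (w - s) * G w) e = t • G s (z1 v) := by
        rw [hw, add_sub_cancel_left]
        simp only [Module.End.mul_apply, LinearMap.smul_apply, map_smul]
        rfl
      rw [h2] at h1
      change G s (z1 v) ∈ orb W v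
      refine mem_orb.2 ⟨t⁻¹ • w, W.smul_mem _ hwW, ?_⟩
      rw [LinearMap.smul_apply]
      have h3 : w v = t • G s (z1 v) := by
        have h4 : w v = v - e := by
          conv_rhs => rw [← hve]
          abel
        rw [h4]
        conv_lhs => rw [h1]
        abel
      rw [h3, smul_smul, inv_mul_cancel₀ ht0, one_smul]
    | some i => exact mem_orb.2 ⟨zb i, hZW (hzb i), rfl⟩
  have hfrW : finrank K (orb Z e) + 1 ≤ finrank K (orb W v) := by
    have hli3 : LinearIndependent K (fun o => (⟨f o t, hmem o⟩ : orb W v)) := by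
      apply LinearIndependent.of_comp (Submodule.subtype _)
      exact hli
    have := hli3.fintype_card_le_finrank
    simpa using this
  have hmapU : (orb W v).map (G w) ≤ U := by
    rintro _ ⟨x, hx, rfl⟩
    obtain ⟨w', hw', rfl⟩ := mem_orb.1 hx
    exact hGwU w hwW w' hw'
  have hmapfr : finrank K ((orb W v).map (G w)) = finrank K (orb W v) := by
    have h := finrank_map_add_inf_ker (orb W v) (G w)
    rw [LinearMap.ker_eq_bot.2 (G_injective hwnil), inf_bot_eq, finrank_bot, add_zero] at h
    exact h
  have hmapeq : (orb W v).map (G w) = U :=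
    Submodule.eq_of_le_of_finrank_le hmapU (by omega)
  have hvU : v ∈ U := hGU w hwW
  rw [← hmapeq] at hvU
  obtain ⟨x, hx, hxv⟩ := hvU
  obtain ⟨w', hw', rfl⟩ := mem_orb.1 hx
  -- hence `e = w' v` and `v = (w + w') v`
  have h1 : w' v = e := by
    apply G_injective hwnil
    rw [hxv]
  have h2 : (w + w') v = v := by
    rw [LinearMap.add_apply, h1, ← hve]
    abel
  have h3 := eq_zero_of_fix (hWnil _ (W.add_mem hwW hw')) h2
  apply he0
  rw [← hve, h3]
  simp

end Core

section Induction

variable {K : Type u} [Field K]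

/-- `g n r = ∑_{i<r} (n-1-i)`, the maximal dimension of a linear space of nilpotent `n × n`
matrices of rank at most `r`. -/
def gbound (n r : ℕ) : ℕ := ∑ i ∈ Finset.range r, (n - 1 - i)

lemma gbound_succ_succ (n r : ℕ) : gbound (n + 1) (r + 1) = n + gbound n r := by
  unfold gbound
  rw [Finset.sum_range_succ', add_comm]
  congr 1
  apply Finset.sum_congr rfl
  intro i _
  omega

lemma gbound_succ (n r : ℕ) (h : r ≤ n) : gbound (n + 1) r = r + gbound n r := by
  unfold gbound
  have : ∀ i ∈ Finset.range r, n + 1 - 1 - i = 1 + (n - 1 - i) := by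
    intro i hi
    simp only [Finset.mem_range] at hi
    omega
  rw [Finset.sum_congr rfl this, Finset.sum_add_distrib]
  simp

/-- The rank of the operator induced on `V / K e`. -/
lemma finrank_range_bar {V : Type v} [AddCommGroup V] [Module K V] [FiniteDimensional K V]
    (e : V) (s : End K V) (B : End K (V ⧸ (K ∙ e)))
    (hB : B ∘ₗ (K ∙ e).mkQ = (K ∙ e).mkQ ∘ₗ s) :
    finrank K (LinearMap.range B) + finrank K (LinearMap.range s ⊓ (K ∙ e) : Submodule K V) =
      finrank K (LinearMap.range s) := by
  have h1 := finrank_map_add_inf_ker (LinearMap.range s) (K ∙ e).mkQ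
  have h2 : (LinearMap.range s).map (K ∙ e).mkQ = LinearMap.range B := by
    rw [← LinearMap.range_comp, ← hB, LinearMap.range_comp, Submodule.range_mkQ,
      Submodule.map_top]
  rw [h2, Submodule.ker_mkQ] at h1
  exact h1

lemma isNilpotent_bar {V : Type v} [AddCommGroup V] [Module K V]
    (e : V) (s : End K V) (hs : IsNilpotent s) (B : End K (V ⧸ (K ∙ e)))
    (hB : B ∘ₗ (K ∙ e).mkQ = (K ∙ e).mkQ ∘ₗ s) : IsNilpotent B := by
  obtain ⟨k, hk⟩ := hs
  refine ⟨k, ?_⟩
  have h : ∀ j : ℕ, (B ^ j) ∘ₗ (K ∙ e).mkQ = (K ∙ e).mkQ ∘ₗ (s ^ j) := by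
    intro j
    induction j with
    | zero => rfl
    | succ j ih =>
      have h1 : (B ^ (j + 1)) ∘ₗ (K ∙ e).mkQ = (B ^ j) ∘ₗ (B ∘ₗ (K ∙ e).mkQ) := by
        rw [pow_succ]
        rfl
      have h2 : (K ∙ e).mkQ ∘ₗ (s ^ (j + 1)) = ((K ∙ e).mkQ ∘ₗ (s ^ j)) ∘ₗ s := by
        rw [pow_succ]
        rfl
      rw [h1, hB, h2, ← ih]
      rfl
  have h3 := h k
  rw [hk] at h3
  ext x
  have := LinearMap.congr_fun h3 x
  simpa using this

/-- Main inequality: an affine space `s + Z` of nilpotent operators with ranks between `p`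
and `r` satisfies `dim Z + p ≤ g n r`. -/
theorem main_ineq (n : ℕ) : ∀ (V : Type v) [AddCommGroup V] [Module K V] [FiniteDimensional K V],
    finrank K V = n → ∀ (T : Finset K), (0 : K) ∉ T → n < T.card → n * (n - 1) < T.card →
    ∀ (s : End K V) (Z : Submodule K (End K V)) (p r : ℕ),
    (∀ z ∈ Z, IsNilpotent (s + z)) →
    (∀ z ∈ Z, p ≤ finrank K (LinearMap.range (s + z))) →
    (∀ z ∈ Z, finrank K (LinearMap.range (s + z)) ≤ r) →
    finrank K Z + p ≤ gbound n r := by
  induction n with
  | zero =>
    intro V _ _ _ hn T _ _ _ s Z p r _ hp _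
    have h1 : finrank K Z ≤ finrank K (End K V) := Submodule.finrank_le Z
    have h2 : finrank K (End K V) = 0 := by
      rw [Module.finrank_linearMap, hn]
    have h3 := hp 0 Z.zero_mem
    have h4 : finrank K (LinearMap.range (s + 0)) ≤ finrank K V := Submodule.finrank_le _
    omega
  | succ n ih =>
    intro V _ _ _ hn T hT0 hT1 hT2 s Z p r hnil hp hr
    -- the directions are nilpotent
    have hZ : ∀ z ∈ Z, IsNilpotent z := by
      intro z hz
      exact isNilpotent_direction (s := s) T hT0 (by rw [hn]; exact hT1)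
        (fun t => hnil _ (Z.smul_mem t hz))
    have hTn : n < T.card := by omega
    have hTn2 : n * (n - 1) < T.card := by
      refine lt_of_le_of_lt ?_ hT2
      exact Nat.mul_le_mul (by omega) (by omega)
    -- a kernel vector
    have hkv : ∃ e : V, e ≠ 0 ∧ s e = 0 := by
      by_contra hcon
      push Not at hcon
      have hinj : LinearMap.ker s = ⊥ := by
        rw [LinearMap.ker_eq_bot']
        intro x hx
        by_contra hne
        exact hcon x hne hx
      have hs := hnil 0 Z.zero_mem
      rw [add_zero] at hs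
      obtain ⟨k, hk⟩ := hs
      have : Nontrivial V := by
        apply Module.nontrivial_of_finrank_pos (R := K)
        omega
      obtain ⟨x, hx⟩ := exists_ne (0 : V)
      have hinj2 : Function.Injective (s ^ k) := by
        rw [Module.End.coe_pow]
        exact (LinearMap.ker_eq_bot.1 hinj).iterate k
      apply hx
      apply hinj2
      rw [hk]
      simp
    obtain ⟨e, he0, hse⟩ := hkv
    have hVbar : finrank K (V ⧸ (K ∙ e)) = n := by
      have h1 := Submodule.finrank_quotient_add_finrank (K ∙ e)
      rw [finrank_span_singleton he0] at h1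
      omega
    have hinf1 : ∀ s' : End K V, e ∈ LinearMap.range s' →
        finrank K (LinearMap.range s' ⊓ (K ∙ e) : Submodule K V) = 1 := by
      intro s' hs'
      rw [inf_eq_right.2 ((Submodule.span_singleton_le_iff_mem _ _).2 hs'),
        finrank_span_singleton he0]
    have hinf0 : ∀ s' : End K V, e ∉ LinearMap.range s' →
        finrank K (LinearMap.range s' ⊓ (K ∙ e) : Submodule K V) = 0 := by
      intro s' hs'
      have h1 := finrank_sup_span hs'
      have h2 := Submodule.finrank_sup_add_finrank_inf_eq (K ∙ e) (LinearMap.range s')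
      rw [finrank_span_singleton he0, inf_comm] at h2
      omega
    -- the induction hypothesis applied to the quotient of a base point
    have hIH : ∀ s' : End K V, s' e = 0 → (∀ z ∈ Z, IsNilpotent (s' + z)) → ∀ p' r' : ℕ,
        (∀ z ∈ Z, z e = 0 → p' + finrank K (LinearMap.range (s' + z) ⊓ (K ∙ e) :
          Submodule K V) ≤ finrank K (LinearMap.range (s' + z))) →
        (∀ z ∈ Z, z e = 0 → finrank K (LinearMap.range (s' + z)) ≤ r' +
          finrank K (LinearMap.range (s' + z) ⊓ (K ∙ e) : Submodule K V)) →
        finrank K (Zbar Z e) + p' ≤ gbound n r' := by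
      intro s' hs'e hs'nil p' r' hp' hr'
      have hk : K ∙ e ≤ (K ∙ e).comap s' := by
        rw [Submodule.span_singleton_le_iff_mem, Submodule.mem_comap, hs'e]
        exact Submodule.zero_mem _
      have hcomp : ∀ B ∈ Zbar Z e, ∃ z ∈ Z, z e = 0 ∧
          ((K ∙ e).mapQ (K ∙ e) s' hk + B) ∘ₗ (K ∙ e).mkQ = (K ∙ e).mkQ ∘ₗ (s' + z) := by
        rintro B ⟨z, hz, hze, hB⟩
        refine ⟨z, hz, hze, ?_⟩
        rw [LinearMap.add_comp, hB, LinearMap.comp_add]
        congr 1
      apply ih (V ⧸ (K ∙ e)) hVbar T hT0 hTn hTn2 ((K ∙ e).mapQ (K ∙ e) s' hk) (Zbar Z e) p' r'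
      · intro B hB
        obtain ⟨z, hz, hze, hBz⟩ := hcomp B hB
        exact isNilpotent_bar e _ (hs'nil z hz) _ hBz
      · intro B hB
        obtain ⟨z, hz, hze, hBz⟩ := hcomp B hB
        have h1 := finrank_range_bar e _ _ hBz
        have h2 := hp' z hz hze
        omega
      · intro B hB
        obtain ⟨z, hz, hze, hBz⟩ := hcomp B hB
        have h1 := finrank_range_bar e _ _ hBz
        have h2 := hr' z hz hze
        omega
    have hdec := finrank_decomp Z e
    by_cases hA : ∃ z0 ∈ Z, z0 e = 0 ∧ finrank K (LinearMap.range (s + z0)) = r ∧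
        e ∉ LinearMap.range (s + z0)
    · -- Case A
      obtain ⟨z0, hz0, hz0e, hz0r, hz0range⟩ := hA
      have hs'e : (s + z0) e = 0 := by simp [hse, hz0e]
      have hs'nil : ∀ z ∈ Z, IsNilpotent (s + z0 + z) := by
        intro z hz
        rw [add_assoc]
        exact hnil _ (Z.add_mem hz0 hz)
      have hmax : ∀ z ∈ Z, finrank K (LinearMap.range (s + z0 + z)) ≤
          finrank K (LinearMap.range (s + z0)) := by
        intro z hz
        rw [hz0r, add_assoc]
        exact hr _ (Z.add_mem hz0 hz)
      have hrn : r ≤ n := by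
        have h1 := LinearMap.finrank_range_add_finrank_ker (s + z0)
        have h2 : 0 < finrank K (LinearMap.ker (s + z0)) := by
          rw [Module.finrank_pos_iff_exists_ne_zero]
          exact ⟨⟨e, hs'e⟩, fun h => he0 (congrArg Subtype.val h)⟩
        omega
      rw [gbound_succ n r hrn]
      have hr' : ∀ z ∈ Z, z e = 0 → finrank K (LinearMap.range (s + z0 + z)) ≤ r +
          finrank K (LinearMap.range (s + z0 + z) ⊓ (K ∙ e) : Submodule K V) := by
        intro z hz _
        have := hmax z hz
        omega
      by_cases hA1 : ∃ z2 ∈ Z, z2 e = 0 ∧ finrank K (LinearMap.range (s + z0 + z2)) = p ∧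
          e ∈ LinearMap.range (s + z0 + z2)
      · obtain ⟨z2, hz2, hz2e, hz2p, hz2range⟩ := hA1
        have hF3 := F3 Z hZ (s + z0) e hs'e hz0range T hT0 (by omega) hmax z2 hz2 hz2e hz2range
          (by
            intro z hz
            rw [hz2p]
            have := hp (z0 + z2 + z) (Z.add_mem (Z.add_mem hz0 hz2) hz)
            rwa [← add_assoc, ← add_assoc] at this)
        rw [hz0r] at hF3
        have hp1 : 1 ≤ p := by
          have h1 := hinf1 _ hz2range
          have h2 : finrank K (LinearMap.range (s + z0 + z2) ⊓ (K ∙ e) : Submodule K V) ≤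
              finrank K (LinearMap.range (s + z0 + z2)) := Submodule.finrank_mono inf_le_left
          omega
        have h := hIH (s + z0) hs'e hs'nil (p - 1) r (by
          intro z hz hze
          have h1 := hp (z0 + z) (Z.add_mem hz0 hz)
          rw [← add_assoc] at h1
          by_cases hin : e ∈ LinearMap.range (s + z0 + z)
          · rw [hinf1 _ hin]
            omega
          · rw [hinf0 _ hin]
            omega) hr'
        omega
      · push Not at hA1
        have hF2 := F2 Z hZ (s + z0) e hs'e hz0range T hT0 (by omega) hmax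
        rw [hz0r] at hF2
        have h := hIH (s + z0) hs'e hs'nil p r (by
          intro z hz hze
          have h1 := hp (z0 + z) (Z.add_mem hz0 hz)
          rw [← add_assoc] at h1
          by_cases hin : e ∈ LinearMap.range (s + z0 + z)
          · rw [hinf1 _ hin]
            have h2 : finrank K (LinearMap.range (s + z0 + z)) ≠ p :=
              fun h3 => hA1 z hz hze h3 hin
            omega
          · rw [hinf0 _ hin]
            omega) hr'
        omega
    · -- Case B
      push Not at hA
      have hr1 : 1 ≤ r := by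
        by_contra h0
        have h1 := hr 0 Z.zero_mem
        have h2 : finrank K (LinearMap.range (s + 0)) = r := by omega
        have h3 := hA 0 Z.zero_mem (by simp) h2
        have h4 : finrank K (LinearMap.range (s + 0)) = 0 := by omega
        rw [Submodule.finrank_eq_zero] at h4
        rw [h4, Submodule.mem_bot] at h3
        exact he0 h3
      obtain ⟨r', rfl⟩ : ∃ r', r = r' + 1 := ⟨r - 1, by omega⟩
      rw [gbound_succ_succ]
      have hr' : ∀ z ∈ Z, z e = 0 → finrank K (LinearMap.range (s + z)) ≤ r' +
          finrank K (LinearMap.range (s + z) ⊓ (K ∙ e) : Submodule K V) := by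
        intro z hz hze
        have h1 := hr z hz
        by_cases hin : e ∈ LinearMap.range (s + z)
        · rw [hinf1 _ hin]
          omega
        · rw [hinf0 _ hin]
          have h2 : finrank K (LinearMap.range (s + z)) ≠ r' + 1 :=
            fun h3 => hin (hA z hz hze h3)
          omega
      by_cases hB1 : ∃ z2 ∈ Z, z2 e = 0 ∧ finrank K (LinearMap.range (s + z2)) = p ∧
          e ∈ LinearMap.range (s + z2)
      · obtain ⟨z2, hz2, hz2e, hz2p, hz2range⟩ := hB1
        have hs2e : (s + z2) e = 0 := by simp [hse, hz2e]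
        have hF4 := F4 Z hZ (s + z2)
          (by
            intro z hz
            rw [add_assoc]
            exact hnil _ (Z.add_mem hz2 hz))
          e he0 hs2e hz2range T hT0 (by rw [hn]; exact hT1) (by rw [hn]; exact hT2)
          (by
            intro z hz
            rw [hz2p, add_assoc]
            exact hp _ (Z.add_mem hz2 hz))
        have hp1 : 1 ≤ p := by
          have h1 := hinf1 _ hz2range
          have h2 : finrank K (LinearMap.range (s + z2) ⊓ (K ∙ e) : Submodule K V) ≤
              finrank K (LinearMap.range (s + z2)) := Submodule.finrank_mono inf_le_left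
          omega
        have h := hIH s hse hnil (p - 1) r' (by
          intro z hz hze
          have h1 := hp z hz
          by_cases hin : e ∈ LinearMap.range (s + z)
          · rw [hinf1 _ hin]
            omega
          · rw [hinf0 _ hin]
            omega) hr'
        omega
      · push Not at hB1
        have hF1 := F1 Z hZ he0
        have h := hIH s hse hnil p r' (by
          intro z hz hze
          have h1 := hp z hz
          by_cases hin : e ∈ LinearMap.range (s + z)
          · rw [hinf1 _ hin]
            have h2 : finrank K (LinearMap.range (s + z)) ≠ p :=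
              fun h3 => hB1 z hz hze h3 hin
            omega
          · rw [hinf0 _ hin]
            omega) hr'
        omega

end Induction

section Example

variable {K : Type u} [Field K]

/-- The positions `(i, j)` with `i < r` and `i + 2 ≤ j` (zero-based). -/
def Pos (n r : ℕ) (p : Fin n × Fin n) : Prop := p.1.val < r ∧ p.1.val + 2 ≤ p.2.val

instance (n r : ℕ) : DecidablePred (Pos n r) := fun p => by unfold Pos; infer_instance

/-- Direction of the extremal example. -/
def Zlow (K : Type u) [Field K] (n r : ℕ) : Submodule K (Matrix (Fin n) (Fin n) K) where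
  carrier := {A | ∀ i j, ¬ Pos n r (i, j) → A i j = 0}
  zero_mem' := fun _ _ _ => rfl
  add_mem' := by
    intro A B hA hB i j h
    rw [Matrix.add_apply, hA i j h, hB i j h, add_zero]
  smul_mem' := by
    intro c A hA i j h
    rw [Matrix.smul_apply, hA i j h, smul_zero]

/-- Base point of the extremal example. -/
def slow (K : Type u) [Field K] (n r : ℕ) : Matrix (Fin n) (Fin n) K :=
  fun i j => if i.val < r ∧ j.val = i.val + 1 then 1 else 0

/-- Coordinates on `Zlow`. -/
def ZlowEquiv (n r : ℕ) : Zlow K n r ≃ₗ[K] ({p : Fin n × Fin n // Pos n r p} → K) where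
  toFun A := fun p => A.1 p.1.1 p.1.2
  map_add' A B := rfl
  map_smul' c A := rfl
  invFun f := ⟨fun i j => if h : Pos n r (i, j) then f ⟨(i, j), h⟩ else 0, by
    intro i j h
    simp [h]⟩
  left_inv A := by
    ext i j
    by_cases h : Pos n r (i, j)
    · simp [h]
    · simp [h, A.2 i j h]
  right_inv f := by
    funext p
    obtain ⟨⟨i, j⟩, h⟩ := p
    simp [h]

lemma card_Pos (n r : ℕ) (hr : r ≤ n - 1) :
    Fintype.card {p : Fin n × Fin n // Pos n r p} = ∑ i ∈ Finset.Icc 1 r, (n - 1 - i) := by
  classical
  have h1 : Fintype.card {p : Fin n × Fin n // Pos n r p} =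
      ∑ i : Fin n, ∑ j : Fin n, if Pos n r (i, j) then 1 else 0 := by
    rw [Fintype.card_subtype, Finset.card_filter, ← Finset.univ_product_univ,
      Finset.sum_product]
  rw [h1]
  have h2 : ∀ i : Fin n, (∑ j : Fin n, if Pos n r (i, j) then 1 else 0) =
      if i.val < r then n - 2 - i.val else 0 := by
    intro i
    by_cases hi : i.val < r
    · rw [if_pos hi]
      have h3 : ∀ j : Fin n, (if Pos n r (i, j) then 1 else 0) =
          (fun j : ℕ => if i.val + 2 ≤ j then 1 else 0) j.val := by
        intro j
        simp [Pos, hi]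
      rw [Finset.sum_congr rfl (fun j _ => h3 j), Fin.sum_univ_eq_sum_range
        (fun j : ℕ => if i.val + 2 ≤ j then 1 else 0) n, ← Finset.card_filter]
      have h4 : (Finset.range n).filter (fun j => i.val + 2 ≤ j) =
          Finset.Ico (i.val + 2) n := by
        ext j
        simp only [Finset.mem_filter, Finset.mem_range, Finset.mem_Ico]
        omega
      rw [h4, Nat.card_Ico]
      omega
    · rw [if_neg hi]
      apply Finset.sum_eq_zero
      intro j _
      simp [Pos, hi]
  rw [Finset.sum_congr rfl (fun i _ => h2 i), Fin.sum_univ_eq_sum_range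
    (fun i : ℕ => if i < r then n - 2 - i else 0) n]
  have h5 : ∑ i ∈ Finset.range n, (if i < r then n - 2 - i else 0) =
      ∑ i ∈ Finset.range r, (n - 2 - i) := by
    rw [← Finset.sum_filter]
    apply Finset.sum_congr _ (fun _ _ => rfl)
    ext i
    simp only [Finset.mem_filter, Finset.mem_range]
    omega
  rw [h5]
  apply Finset.sum_nbij (fun i => i + 1)
  · intro i hi
    simp only [Finset.mem_range, Finset.mem_Icc] at hi ⊢
    omega
  · intro i _ j _ hij
    simpa using hij
  · intro j hj
    simp only [Finset.coe_Icc, Set.mem_Icc] at hj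
    exact ⟨j - 1, by simp only [Finset.coe_range, Set.mem_Iio]; omega, by simp only; omega⟩
  · intro i _
    omega

lemma finrank_Zlow (n r : ℕ) (hr : r ≤ n - 1) :
    finrank K (Zlow K n r) = ∑ i ∈ Finset.Icc 1 r, (n - 1 - i) := by
  rw [(ZlowEquiv n r).finrank_eq, Module.finrank_fintype_fun_eq_card, card_Pos n r hr]

/-- Elements of the extremal example: entries. -/
lemma low_entries {n r : ℕ} {A : Matrix (Fin n) (Fin n) K}
    (hA : A - slow K n r ∈ Zlow K n r) (i j : Fin n) :
    (j.val ≤ i.val → A i j = 0) ∧ (r ≤ i.val → A i j = 0) ∧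
      (i.val < r → j.val = i.val + 1 → A i j = 1) := by
  have h := hA i j
  have h' : A i j = (A - slow K n r) i j + slow K n r i j := by simp
  refine ⟨fun hji => ?_, fun hri => ?_, fun hir hj => ?_⟩
  · rw [h', h (by unfold Pos; simp only; omega)]
    simp only [slow, zero_add]
    rw [if_neg]
    omega
  · rw [h', h (by unfold Pos; simp only; omega)]
    simp only [slow, zero_add]
    rw [if_neg]
    omega
  · rw [h', h (by unfold Pos; simp only; omega)]
    simp only [slow, zero_add]
    rw [if_pos ⟨hir, hj⟩]

lemma low_nilpotent {n r : ℕ} {A : Matrix (Fin n) (Fin n) K}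
    (hA : A - slow K n r ∈ Zlow K n r) : IsNilpotent A := by
  have h1 : A.charpoly = Polynomial.X ^ n := by
    have htri : A.BlockTriangular id := by
      intro i j hij
      exact (low_entries hA i j).1 (le_of_lt hij)
    rw [Matrix.charpoly_of_isUpperTriangular A htri]
    have : ∀ i ∈ (Finset.univ : Finset (Fin n)),
        (Polynomial.X - Polynomial.C (A i i) : Polynomial K) = Polynomial.X := by
      intro i _
      rw [(low_entries hA i i).1 le_rfl]
      simp
    rw [Finset.prod_congr rfl this]
    simp
  have h2 := Matrix.aeval_self_charpoly A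
  rw [h1] at h2
  exact ⟨n, by simpa using h2⟩

lemma low_rank {n r : ℕ} (hr : r ≤ n - 1) (hn : 2 ≤ n) {A : Matrix (Fin n) (Fin n) K}
    (hA : A - slow K n r ∈ Zlow K n r) : A.rank = r := by
  classical
  apply le_antisymm
  · let P : Matrix (Fin n) (Fin r) K := fun i k => if i.val = k.val then 1 else 0
    let Q : Matrix (Fin r) (Fin n) K := fun k j => A (Fin.castLE (by omega) k) j
    have hPQ : A = P * Q := by
      ext i j
      rw [Matrix.mul_apply]
      by_cases hi : i.val < r
      · rw [Finset.sum_eq_single (⟨i.val, hi⟩ : Fin r)]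
        · simp [P, Q]
        · intro k _ hk
          have : i.val ≠ k.val := fun h => hk (Fin.ext h.symm)
          simp [P, this]
        · simp
      · rw [(low_entries hA i j).2.1 (by omega)]
        symm
        apply Finset.sum_eq_zero
        intro k _
        have : i.val ≠ k.val := fun h => hi (h ▸ k.2)
        simp [P, this]
    rw [hPQ]
    exact (Matrix.rank_mul_le_left P Q).trans (Matrix.rank_le_width P)
  · let v : Fin r → (Fin n → K) := fun k => A.mulVecLin (Pi.single ⟨k.val + 1, by omega⟩ 1)
    have hv : ∀ k i, v k i = A i ⟨k.val + 1, by omega⟩ := by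
      intro k i
      simp [v]
    have hli : LinearIndependent K v := by
      apply LinearIndependent.of_comp (LinearMap.funLeft K K (Fin.castLE (by omega : r ≤ n)))
      let B : Matrix (Fin r) (Fin r) K := fun i k => A (Fin.castLE (by omega) i) ⟨k.val + 1, by omega⟩
      have hB : B.det ≠ 0 := by
        have htri : B.BlockTriangular id := by
          intro i k hik
          apply (low_entries hA _ _).1
          have : k.val < i.val := hik
          simp
          omega
        rw [Matrix.det_of_isUpperTriangular htri]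
        have : ∀ i ∈ (Finset.univ : Finset (Fin r)), B i i = 1 := by
          intro i _
          apply (low_entries hA _ _).2.2
          · simp
          · simp
        rw [Finset.prod_congr rfl this]
        simp
      have h2 : (⇑(LinearMap.funLeft K K (Fin.castLE (by omega : r ≤ n))) ∘ v) = B.col := by
        funext k
        ext i
        change v k (Fin.castLE _ i) = B i k
        rw [hv]
      rw [h2]
      exact Matrix.linearIndependent_cols_of_det_ne_zero hB
    have hmem : ∀ k, v k ∈ LinearMap.range A.mulVecLin := fun k => ⟨_, rfl⟩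
    have hli3 : LinearIndependent K (fun k => (⟨v k, hmem k⟩ : LinearMap.range A.mulVecLin)) := by
      apply LinearIndependent.of_comp (Submodule.subtype _)
      exact hli
    have := hli3.fintype_card_le_finrank
    rw [Fintype.card_fin] at this
    exact this

end Example

/-- **Affine spaces of nilpotent matrices of constant rank.**
Let `2 ≤ n` and `1 ≤ r ≤ n - 1`. For every field `K` with at least `n ^ 2` elements, the number
`∑_{i=1}^{r} (n - 1 - i)` is the largest dimension of an affine subspace (a nonempty translate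
of a linear subspace) of `M_n(K)` all of whose elements are nilpotent of rank exactly `r`. -/
theorem result (n r : ℕ) (hn : 2 ≤ n) (_hr1 : 1 ≤ r) (hr : r ≤ n - 1)
    (K : Type u) [Field K] (hK : ((n ^ 2 : ℕ) : Cardinal.{u}) ≤ Cardinal.mk K) :
    IsGreatest
      {d : ℕ | ∃ S : AffineSubspace K (Matrix (Fin n) (Fin n) K),
        (S : Set (Matrix (Fin n) (Fin n) K)).Nonempty ∧
        (∀ A ∈ S, IsNilpotent A ∧ A.rank = r) ∧
        Module.finrank K S.direction = d}
      (∑ i ∈ Finset.Icc 1 r, (n - 1 - i)) := by
  classical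
  constructor
  · refine ⟨AffineSubspace.mk' (slow K n r) (Zlow K n r), ?_, ?_, ?_⟩
    · exact ⟨slow K n r, AffineSubspace.self_mem_mk' _ _⟩
    · intro A hA
      rw [AffineSubspace.mem_mk', vsub_eq_sub] at hA
      exact ⟨low_nilpotent hA, low_rank hr hn hA⟩
    · rw [AffineSubspace.direction_mk', finrank_Zlow n r hr]
  · rintro d ⟨S, ⟨A0, hA0⟩, hS, rfl⟩
    -- a large finite set of nonzero scalars
    obtain ⟨T', hT'⟩ := Cardinal.exists_finset_le_card K (n ^ 2) hK
    set T := T'.erase 0 with hT
    have hT0 : (0 : K) ∉ T := Finset.notMem_erase 0 T'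
    have hTcard : n ^ 2 - 1 ≤ T.card := by
      have := Finset.pred_card_le_card_erase (s := T') (a := 0)
      rw [hT]
      omega
    have hsq : n * (n - 1) + n = n ^ 2 := by
      obtain ⟨m, rfl⟩ : ∃ m, n = m + 1 := ⟨n - 1, by omega⟩
      simp only [Nat.add_sub_cancel]
      ring
    have hTa : n * (n - 1) < T.card := by omega
    have hTb : n < T.card := by
      have h2 : n * 2 ≤ n ^ 2 := by
        rw [pow_two]
        exact Nat.mul_le_mul_left n hn
      have h3 : 2 * 2 ≤ n * n := Nat.mul_le_mul hn hn
      rcases Nat.lt_or_ge n 3 with h | h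
      · have : n = 2 := by omega
        subst this
        omega
      · have : n * 2 < n ^ 2 := by
          rw [pow_two]
          exact (Nat.mul_lt_mul_left (by omega)).2 (by omega)
        omega
    -- transport to linear maps
    let L : Matrix (Fin n) (Fin n) K →ₗ[K] Module.End K (Fin n → K) :=
      (Matrix.toLin' : Matrix (Fin n) (Fin n) K ≃ₗ[K] _).toLinearMap
    have hLinj : Function.Injective L := (Matrix.toLin' : Matrix (Fin n) (Fin n) K ≃ₗ[K] _).injective
    set Z : Submodule K (Module.End K (Fin n → K)) := S.direction.map L with hZ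
    have hZfr : finrank K Z = finrank K S.direction :=
      LinearEquiv.finrank_map_eq (Matrix.toLin' : Matrix (Fin n) (Fin n) K ≃ₗ[K] _) S.direction
    have hmemS : ∀ z ∈ Z, ∃ A ∈ S, L A = L A0 + z := by
      rintro _ ⟨B, hB, rfl⟩
      refine ⟨B + A0, ?_, ?_⟩
      · have := AffineSubspace.vadd_mem_of_mem_direction hB hA0
        simpa using this
      · rw [map_add, add_comm]
    have hrank : ∀ A : Matrix (Fin n) (Fin n) K, finrank K (LinearMap.range (L A)) = A.rank := by
      intro A
      rfl
    have hmain := main_ineq (K := K) n (Fin n → K) (by simp) T hT0 hTb hTa (L A0) Z r r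
      (by
        intro z hz
        obtain ⟨A, hA, hAz⟩ := hmemS z hz
        rw [← hAz]
        obtain ⟨k, hk⟩ := (hS A hA).1
        refine ⟨k, ?_⟩
        have : (L A) ^ k = L (A ^ k) := by
          change (Matrix.toLin' A) ^ k = Matrix.toLin' (A ^ k)
          rw [Matrix.toLin'_pow]
        rw [this, hk, map_zero])
      (by
        intro z hz
        obtain ⟨A, hA, hAz⟩ := hmemS z hz
        rw [← hAz, hrank, (hS A hA).2])
      (by
        intro z hz
        obtain ⟨A, hA, hAz⟩ := hmemS z hz
        rw [← hAz, hrank, (hS A hA).2])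
    rw [hZfr] at hmain
    have hg : gbound n r = r + ∑ i ∈ Finset.Icc 1 r, (n - 1 - i) := by
      have h1 : ∑ i ∈ Finset.Icc 1 r, (n - 1 - i) = ∑ i ∈ Finset.range r, (n - 2 - i) := by
        symm
        apply Finset.sum_nbij (fun i => i + 1)
        · intro i hi
          simp only [Finset.mem_range, Finset.mem_Icc] at hi ⊢
          omega
        · intro i _ j _ hij
          simpa using hij
        · intro j hj
          simp only [Finset.coe_Icc, Set.mem_Icc] at hj
          exact ⟨j - 1, by simp only [Finset.coe_range, Set.mem_Iio]; omega, by simp only; omega⟩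
        · intro i _
          omega
      rw [h1]
      unfold gbound
      have : ∀ i ∈ Finset.range r, n - 1 - i = 1 + (n - 2 - i) := by
        intro i hi
        simp only [Finset.mem_range] at hi
        omega
      rw [Finset.sum_congr rfl this, Finset.sum_add_distrib]
      simp
    omega

end Pool.Agent.Results.MP_5eb035_al.ConstantRank
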